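import Pool.Agent.H30.FCB.StE
import Pool.Agent.H30.FCB.Basic

/-!
Project FCB, module XCOV: the charts of `X` cover.
-/

open MvPolynomial AlgebraicGeometry CategoryTheory

namespace FCB

namespace XCOV

theorem rel : DX.X .x ^ 2 + (2 * DX.X .z * DX.X .a * DX.X .b +
    (DX.X (.y 0) * DX.X (.y 1) - DX.X (.y 2) ^ 2) *
      (DX.X .w ^ 2 * DX.X .a ^ 2 + DX.X .v ^ 2 * DX.X .b ^ 2)) = 0 := by
  have h : Ideal.Quotient.mk (Ideal.span {FX}) FX = 0 :=
    Ideal.Quotient.eq_zero_iff_mem.2 (Ideal.mem_span_singleton_self FX)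
  have h2 : Ideal.Quotient.mk (Ideal.span {FX}) FX = DX.X .x ^ 2 +
      (2 * DX.X .z * DX.X .a * DX.X .b +
        (DX.X (.y 0) * DX.X (.y 1) - DX.X (.y 2) ^ 2) *
          (DX.X .w ^ 2 * DX.X .a ^ 2 + DX.X .v ^ 2 * DX.X .b ^ 2)) := by
    unfold FX GX eP
    simp only [map_add, map_mul, map_pow, map_sub, map_ofNat]
    rfl
  rw [← h2]
  exact h

theorem mem_congr {g g' : Fin 5 → ℤ} {a : RX} (h : a ∈ DX.gr g) (hg : g = g') : a ∈ DX.gr g' := by
  rw [← hg]
  exact h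

theorem deg_eq (j : CX) : DX.deg j = degX j := rfl

theorem two_mem : (2 : RX) ∈ DX.gr 0 := by
  have := DX.algebraMap_mem 2
  rwa [map_ofNat] at this

theorem mx : DX.X .x ^ 2 ∈ DX.gr ![0, 0, 0, 0, 2] := by
  refine mem_congr (DX.pow_mem (DX.X_mem .x) 2) ?_
  rw [deg_eq]
  funext i
  fin_cases i <;> simp [degX]

theorem mz : 2 * DX.X .z * DX.X .a * DX.X .b ∈ DX.gr ![0, 0, 0, 0, 2] := by
  refine mem_congr (DX.mul_mem (DX.mul_mem (DX.mul_mem two_mem (DX.X_mem .z)) (DX.X_mem .a))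
    (DX.X_mem .b)) ?_
  rw [deg_eq, deg_eq, deg_eq]
  funext i
  fin_cases i <;> simp [degX]

theorem me : DX.X (.y 0) * DX.X (.y 1) - DX.X (.y 2) ^ 2 ∈ DX.gr ![-4, 2, 0, 0, 0] := by
  refine Submodule.sub_mem _ ?_ ?_
  · refine mem_congr (DX.mul_mem (DX.X_mem (.y 0)) (DX.X_mem (.y 1))) ?_
    rw [deg_eq, deg_eq]
    funext i
    fin_cases i <;> simp [degX]
  · refine mem_congr (DX.pow_mem (DX.X_mem (.y 2)) 2) ?_
    rw [deg_eq]
    funext i
    fin_cases i <;> simp [degX]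

theorem mw : (DX.X (.y 0) * DX.X (.y 1) - DX.X (.y 2) ^ 2) *
    (DX.X .w ^ 2 * DX.X .a ^ 2) ∈ DX.gr ![0, 0, 0, 0, 2] := by
  refine mem_congr (DX.mul_mem me (DX.mul_mem (DX.pow_mem (DX.X_mem .w) 2)
    (DX.pow_mem (DX.X_mem .a) 2))) ?_
  rw [deg_eq, deg_eq]
  funext i
  fin_cases i <;> simp [degX]

theorem mv : (DX.X (.y 0) * DX.X (.y 1) - DX.X (.y 2) ^ 2) *
    (DX.X .v ^ 2 * DX.X .b ^ 2) ∈ DX.gr ![0, 0, 0, 0, 2] := by
  refine mem_congr (DX.mul_mem me (DX.mul_mem (DX.pow_mem (DX.X_mem .v) 2)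
    (DX.pow_mem (DX.X_mem .b) 2))) ?_
  rw [deg_eq, deg_eq]
  funext i
  fin_cases i <;> simp [degX]

/-- homogeneous elements -/
def Hm (a : RX) : Prop := ∃ g, a ∈ DX.gr g

theorem Hm.mul {a b : RX} (ha : Hm a) (hb : Hm b) : Hm (a * b) := by
  obtain ⟨g, hg⟩ := ha
  obtain ⟨h, hh⟩ := hb
  exact ⟨_, DX.mul_mem hg hh⟩

theorem Hm.pow {a : RX} (ha : Hm a) (k : ℕ) : Hm (a ^ k) := by
  obtain ⟨g, hg⟩ := ha
  exact ⟨_, DX.pow_mem hg k⟩

theorem hX (j : CX) : Hm (DX.X j) := ⟨_, DX.X_mem j⟩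

theorem he : Hm (DX.X (.y 0) * DX.X (.y 1) - DX.X (.y 2) ^ 2) := ⟨_, me⟩

theorem h2 : Hm (2 : RX) := ⟨_, two_mem⟩

section
variable {V : Set RX} (hV : DX.IsVan V)
include hV

theorem ml {a b : RX} (ha : Hm a) (hb : Hm b) (h : a ∈ V) : a * b ∈ V := by
  obtain ⟨g, hg⟩ := ha
  obtain ⟨k, hk⟩ := hb
  exact hV.ideal g k a b hg hk h

theorem mr {a b : RX} (ha : Hm a) (hb : Hm b) (h : b ∈ V) : a * b ∈ V := by
  rw [mul_comm]
  exact ml hV hb ha h

theorem pr {a b : RX} (ha : Hm a) (hb : Hm b) (h : a * b ∈ V) : a ∈ V ∨ b ∈ V := by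
  obtain ⟨g, hg⟩ := ha
  obtain ⟨k, hk⟩ := hb
  exact hV.mul g k a b hg hk h

theorem sq_mem {a : RX} (ha : Hm a) (h : a ^ 2 ∈ V) : a ∈ V := by
  rw [sq] at h
  rcases pr hV ha ha h with h | h <;> exact h

theorem mem_sq {a : RX} (ha : Hm a) (h : a ∈ V) : a ^ 2 ∈ V := by
  rw [sq]
  exact ml hV ha ha h

theorem neg_mem {a : RX} (ha : Hm a) (h : a ∈ V) : -a ∈ V := by
  have h1 : (-1 : RX) ∈ DX.gr 0 := Submodule.neg_mem _ DX.one_mem
  have h3 := ml hV ha ⟨_, h1⟩ h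
  have e : -a = a * (-1) := by ring
  rw [e]
  exact h3

theorem sum3 {a b c d : RX} (ha : a ∈ DX.gr ![0, 0, 0, 0, 2]) (hb : b ∈ DX.gr ![0, 0, 0, 0, 2])
    (hc : c ∈ DX.gr ![0, 0, 0, 0, 2]) (ha' : a ∈ V) (hb' : b ∈ V) (hc' : c ∈ V)
    (h : d = -(a + b + c)) : d ∈ V := by
  rw [h]
  have h1 := hV.add _ a b ha hb ha' hb'
  have h3 := Submodule.add_mem _ ha hb
  have h4 := hV.add _ (a + b) c h3 hc h1 hc'
  exact neg_mem hV ⟨_, Submodule.add_mem _ h3 hc⟩ h4

/-- `x` is in `V` if `z a b`, `w a` and `v b` are -/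
theorem x_mem (h1 : 2 * DX.X .z * DX.X .a * DX.X .b ∈ V) (h2 : DX.X .w ^ 2 * DX.X .a ^ 2 ∈ V)
    (h3 : DX.X .v ^ 2 * DX.X .b ^ 2 ∈ V) : DX.X .x ∈ V := by
  apply sq_mem hV (hX _)
  refine sum3 hV mz mw mv h1 (mr hV he (((hX _).pow 2).mul ((hX _).pow 2)) h2)
    (mr hV he (((hX _).pow 2).mul ((hX _).pow 2)) h3) ?_
  linear_combination rel

theorem x_va (hv : DX.X .v ∈ V) (ha : DX.X .a ∈ V) : DX.X .x ∈ V := by
  refine x_mem hV ?_ ?_ ?_
  · exact ml hV ((h2.mul (hX _)).mul (hX _)) (hX _) (mr hV (h2.mul (hX _)) (hX _) ha)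
  · exact mr hV ((hX _).pow 2) ((hX _).pow 2) (mem_sq hV (hX _) ha)
  · exact ml hV ((hX _).pow 2) ((hX _).pow 2) (mem_sq hV (hX _) hv)

theorem x_wb (hw : DX.X .w ∈ V) (hb : DX.X .b ∈ V) : DX.X .x ∈ V := by
  refine x_mem hV ?_ ?_ ?_
  · exact mr hV ((h2.mul (hX _)).mul (hX _)) (hX _) hb
  · exact ml hV ((hX _).pow 2) ((hX _).pow 2) (mem_sq hV (hX _) hw)
  · exact mr hV ((hX _).pow 2) ((hX _).pow 2) (mem_sq hV (hX _) hb)

theorem x_ab (ha : DX.X .a ∈ V) (hb : DX.X .b ∈ V) : DX.X .x ∈ V := by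
  refine x_mem hV ?_ ?_ ?_
  · exact mr hV ((h2.mul (hX _)).mul (hX _)) (hX _) hb
  · exact mr hV ((hX _).pow 2) ((hX _).pow 2) (mem_sq hV (hX _) ha)
  · exact mr hV ((hX _).pow 2) ((hX _).pow 2) (mem_sq hV (hX _) hb)

theorem two_not (n : CX → ℕ) (hn : DX.mono n ∉ V) : (2 : RX) ∉ V := by
  intro h
  apply hn
  have h1 : DX.mono n = 2 * ((algebraMap ℂ RX (1 / 2)) * DX.mono n) := by
    have e1 : (2 : RX) = algebraMap ℂ RX 2 := by rw [map_ofNat]
    rw [e1, ← mul_assoc, ← map_mul]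
    norm_num
  rw [h1]
  exact ml hV h2 (Hm.mul ⟨_, DX.algebraMap_mem _⟩ ⟨_, DX.mono_mem n⟩) h

theorem x_not (n : CX → ℕ) (hn : DX.mono n ∉ V) (hw : DX.X .w ∈ V) (hv : DX.X .v ∈ V)
    (hz : DX.X .z ∉ V) (ha : DX.X .a ∉ V) (hb : DX.X .b ∉ V) : DX.X .x ∉ V := by
  intro hx
  have h1 : 2 * DX.X .z * DX.X .a * DX.X .b ∈ V := by
    refine sum3 hV mx mw mv (mem_sq hV (hX _) hx)
      (mr hV he (((hX _).pow 2).mul ((hX _).pow 2))
        (ml hV ((hX _).pow 2) ((hX _).pow 2) (mem_sq hV (hX _) hw)))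
      (mr hV he (((hX _).pow 2).mul ((hX _).pow 2))
        (ml hV ((hX _).pow 2) ((hX _).pow 2) (mem_sq hV (hX _) hv))) ?_
    linear_combination rel
  rcases pr hV ((h2.mul (hX _)).mul (hX _)) (hX _) h1 with h3 | h3
  · rcases pr hV (h2.mul (hX _)) (hX _) h3 with h4 | h4
    · rcases pr hV h2 (hX _) h4 with h5 | h5
      · exact two_not hV n hn h5
      · exact hz h5
    · exact ha h4
  · exact hb h3

theorem not_of_ne (n : CX → ℕ) (hn : DX.mono n ∉ V) (j : CX) (hj : n j ≠ 0) : DX.X j ∉ V := by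
  intro h
  apply hn
  have e1 : n = Pi.single j 1 + (n - Pi.single j 1) := by
    funext i
    simp only [Pi.add_apply, Pi.sub_apply]
    by_cases hi : i = j
    · subst hi
      simp only [Pi.single_eq_same]
      omega
    · rw [Pi.single_eq_of_ne hi]
      omega
  rw [e1, DX.mono_add, DX.mono_single, pow_one]
  exact ml hV (hX _) ⟨_, DX.mono_mem _⟩ h

end

end XCOV

open XCOV in
/-- XCOV -/
theorem xcov : S_XCOV := by
  intro V hV
  obtain ⟨m, hm, n, hwt, hn⟩ := hV.nonempty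
  have hne := not_of_ne hV n hn
  have hc : ∀ i : Fin 5, DX.wt n i = (m • DX.L) i := fun i => congrFun hwt i
  have hL : DX.L = ![3, 3, 1, 1, 1] := rfl
  have hs : ∀ i : Fin 5, DX.wt n i = ∑ j : CX, (n j : ℤ) * degX j i := by
    intro i
    unfold Cox.wt
    rw [Finset.sum_apply]
    rfl
  have e0 := hc 0
  have e1 := hc 1
  have e2 := hc 2
  have e3 := hc 3
  have e4 := hc 4
  rw [hs, hL, sum_CX, Fin.sum_univ_three] at e0 e1 e2 e3 e4
  simp [degX] at e0 e1 e2 e3 e4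
  have ht0 : (0 : ℤ) ≤ ∑ i, (n (.t i) : ℤ) := Finset.sum_nonneg fun i _ => Int.natCast_nonneg _
  have hmZ : (0 : ℤ) < m := by exact_mod_cast hm
  -- some t
  have hT : ∃ i, DX.X (.t i) ∉ V := by
    by_contra hcon
    push Not at hcon
    have h0 : ∀ i, n (.t i) = 0 := fun i => by
      by_contra h
      exact hne _ h (hcon i)
    simp only [h0] at e0
    simp at e0
    omega
  have hY : ∃ j, DX.X (.y j) ∉ V := by
    by_contra hcon
    push Not at hcon
    have h0 : ∀ i, n (.y i) = 0 := fun i => by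
      by_contra h
      exact hne _ h (hcon i)
    rw [h0, h0, h0] at e1
    simp at e1
    omega
  have z0 : ∀ j, DX.X j ∈ V → n j = 0 := fun j hj => by
    by_contra h
    exact hne _ h hj
  obtain ⟨i, hi⟩ := hT
  obtain ⟨j, hj⟩ := hY
  have fin : ∀ k : Fin 5, (∀ l ∈ (match k with
      | 0 => {CX.w, CX.v, CX.a}
      | 1 => {CX.w, CX.v, CX.b}
      | 2 => {CX.z, CX.v, CX.b}
      | 3 => {CX.z, CX.w, CX.a}
      | 4 => {CX.z, CX.a, CX.b, CX.x} : Finset CX), DX.X l ∉ V) →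
      ∃ c, ∀ j ∈ DX.u c, DX.X j ∉ V := by
    intro k hk
    refine ⟨(i, j, k), ?_⟩
    intro l hl
    have hu : DX.u (i, j, k) = uX (i, j, k) := rfl
    rw [hu] at hl
    unfold uX at hl
    rw [Finset.mem_union] at hl
    rcases hl with hl | hl
    · rw [Finset.mem_insert, Finset.mem_singleton] at hl
      rcases hl with hl | hl
      · rw [hl]
        exact hi
      · rw [hl]
        exact hj
    · exact hk l hl
  by_cases hw : DX.X .w ∈ V
  · have w0 := z0 _ hw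
    have hz : DX.X .z ∉ V := fun h => by
      have := z0 _ h
      omega
    have hb : DX.X .b ∉ V := fun h => by
      have h1 := z0 _ h
      have h2 := z0 _ (x_wb hV hw h)
      omega
    by_cases hv : DX.X .v ∈ V
    · have v0 := z0 _ hv
      have ha : DX.X .a ∉ V := fun h => by
        have h1 := z0 _ h
        have h2 := z0 _ (x_va hV hv h)
        omega
      have hx := x_not hV n hn hw hv hz ha hb
      apply fin 4
      intro l hl
      simp only [Finset.mem_insert, Finset.mem_singleton] at hl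
      rcases hl with rfl | rfl | rfl | rfl <;> assumption
    · apply fin 2
      intro l hl
      simp only [Finset.mem_insert, Finset.mem_singleton] at hl
      rcases hl with rfl | rfl | rfl <;> assumption
  · by_cases hv : DX.X .v ∈ V
    · have v0 := z0 _ hv
      have hz : DX.X .z ∉ V := fun h => by
        have := z0 _ h
        omega
      have ha : DX.X .a ∉ V := fun h => by
        have h1 := z0 _ h
        have h2 := z0 _ (x_va hV hv h)
        omega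
      apply fin 3
      intro l hl
      simp only [Finset.mem_insert, Finset.mem_singleton] at hl
      rcases hl with rfl | rfl | rfl <;> assumption
    · by_cases ha : DX.X .a ∈ V
      · by_cases hb : DX.X .b ∈ V
        · exfalso
          have h1 := z0 _ ha
          have h2 := z0 _ hb
          have h3 := z0 _ (x_ab hV ha hb)
          omega
        · apply fin 1
          intro l hl
          simp only [Finset.mem_insert, Finset.mem_singleton] at hl
          rcases hl with rfl | rfl | rfl <;> assumption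
      · apply fin 0
        intro l hl
        simp only [Finset.mem_insert, Finset.mem_singleton] at hl
        rcases hl with rfl | rfl | rfl <;> assumption

end FCB
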